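import Pool.Agent.TH710.FF.Main
import Pool.Agent.TH710.FF.Fam

/-!
# Identity testing for circuits of exponential degree: sums of unboundedly many power products with
arbitrary bases and far exponent vectors

`ACIT` is the set of the codes of the well-formed arithmetic circuits computing the zero
polynomial. For all constants `w ≥ 1, D, t, κ` and every fixed exponent `c` there is a
deterministic polynomial-time machine that accepts all of `ACIT` and rejects all codes of circuits
that compute a polynomial with `Tame w D t κ (s ^ c)`, where `s` is the length of the code.

The class consists of divisors of products of sums `∑_i c_i T_i` of `m ≤ n = s ^ c` power products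
`T_i = ∏_j g_j ^ e_ij` with exponents up to `2 ^ n`. The bases `g_j` are arbitrary composite
polynomials (`Composite w n D t`, for instance all polynomials with `n` monomials and degree less
than `w` in each variable, and all read-once formulas of any depth over such polynomials); they
need not be coprime, they may be powers or products of each other, and their number is unbounded.
The products are divided into any number of classes, each of transcendence degree at most `κ`, and
products of different classes are far from each other (`Far`). Examples:

* All sums `∑_l H_l P_l ^ E` of unboundedly many terms, where the `P_l` are products of the bases,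
  no two of them proportional, and the `H_l` are sums of at most `κ` products of the bases, and
  `E` is at least polynomially larger than the degree of the `H_l` (part 2 of the theorem, with
  `μ = E`). The number `μ` need not be an integer, and it may depend on the pair of the products.
* If the bases are multiplicatively independent modulo constants, all sums of power products whose
  exponent vectors have large differences (part 3 of the theorem). For multiplicatively
  independent bases of degree at most `r` it is enough that all differences are at least
  `2 m ^ 2 p r ^ p` in some coordinate, where `p` is the number of the bases.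

The proof: (1) On the generator `x_i = b_i(u) + ∑_t y_t ∏_{j ≠ i} (z_t - j)` two products of
composite polynomials which are not proportional do not become proportional, not even over the
field of the rational functions in `u` (`pair_hitF`). (2) If the number of seeds is doubled, then
they stay non-proportional on generic lines in the directions of the seeds `y` (`Wr_ne`). (3) On
such a line the power products are given by the multiplicities of the bases at the zeros, a matrix
which is a pattern for the bases, and a linear relation splits along classes of products which are
far on this pattern (Wronskian argument, `Pool.Agent.H964R3.sep`); so a relation on the generator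
splits into relations of the classes (`split`), which are treated by the hitting theorem of
`MP_c2aa42_lc.SumsOfSparseFormulas`. The decision procedure and the p-adic estimate are those of
`Pool.Agent.W936.SP`.
-/

set_option autoImplicit false

namespace Pool.Agent.Results.MP_b2b50d_lc.FarExponents

open Pool.Agent.NPC Pool.Agent.H531R2 Pool.Agent.TH710.FF MvPolynomial

/-- (1) The decision procedure. (2) Two power products are far if the difference of their exponent
vectors is close to a multiple `μ f` of an integer vector `f` for which `∏ g_j ^ f_j` is not
constant, where `μ` is large. (3) If no product `∏ g_j ^ f_j` with `f ≠ 0` is constant, two power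
products are far if the difference of the exponents of one `g_j` is large. -/
theorem result (w D t κ : ℕ) (hw : 1 ≤ w) :
    (∀ c : ℕ, ∃ A : List Bool → List Bool, PolyTime A ∧
      (∀ x, A x = [true] ∨ A x = [false]) ∧
      (∀ x ∈ ACIT, A x = [true]) ∧
      (∀ x, (∀ C : List Gate, WF C → bits C ≠ x) → A x = [false]) ∧
      ∀ C : List Gate, Tame w D t κ ((bits C).length ^ c) (cpoly C) → A (bits C) = [false]) ∧
    (∀ (N p m : ℕ) (g : Fin p → MvPolynomial (Fin N) ℂ) (a b : Fin p → ℕ) (μ : ℚ)
      (f : Fin p → ℤ),
      ∑ j, (2 * (m : ℚ) ^ 2 + |(a j : ℚ) - b j - μ * f j|) * (g j).totalDegree < μ →
      (∀ c : ℂ, ∏ j, g j ^ (f j).toNat ≠ C c * ∏ j, g j ^ (-(f j)).toNat) → Far m g a b) ∧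
    ∀ (N p m : ℕ) (g : Fin p → MvPolynomial (Fin N) ℂ) (a b : Fin p → ℕ),
      (∀ f : Fin p → ℤ, f ≠ 0 →
        ∀ c : ℂ, ∏ j, g j ^ (f j).toNat ≠ C c * ∏ j, g j ^ (-(f j)).toNat) →
      ∀ j : Fin p, 2 * (m : ℤ) ^ 2 * (∑ k, ((g k).totalDegree : ℤ)) *
        ∏ k ∈ Finset.univ.erase j, ((g k).totalDegree : ℤ) < |(a j : ℤ) - b j| → Far m g a b :=
  ⟨fun c => main w D t κ c hw, fun _ _ _ _ _ _ μ f hμ hf => far_of_multiple μ f hμ hf,
    fun _ _ _ _ _ _ hind j h => far_of_independent hind j h⟩

end Pool.Agent.Results.MP_b2b50d_lc.FarExponents
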