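import Pool.Agent.TH836.EdgeHit

/-!
# Hitting sets polynomial in the number of edge directions of the Newton polytope

A nonzero polynomial `f` in `n` variables of degree at most `D` over a domain `R`, given by a
circuit of any size and depth, whose Newton polytope has at most `N` edge directions (edges counted
up to parallelism), is nonzero at one of the points
`(x ^ (1 mod p), x ^ (r mod p), x ^ (r² mod p), …, x ^ (r^(n-1) mod p))`, `r < p`, `x ∈ A`,
where `p` is any prime larger than `N (n - 1)` and `A` is any set of more than `D (p - 1)` elements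
of `R`: an explicit hitting set of polynomial size in `n`, `D`, `N`, which does not depend on the
directions. The same point is good for all factors of a product, of which only the total
number of edge directions matters.

The number of monomials, and the number of vertices and edges, can be exponential: if the support
is M-convex (bases of matroids, integer points of generalized permutohedra; arbitrary coefficients)
there are at most `n²` directions, also for products of arbitrarily many such polynomials. If all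
edges have at most `c` nonzero coordinates, bounded by `d`, there are at most `(n (2 d + 1))^c`. The
sparse case (`s` monomials) has at most `s²` directions.
-/

open Finset Matrix Pool.Agent.TH836.ED

namespace Pool.Agent.Results.MP_b2b50d_lc.FewEdgeDirections

variable {n : ℕ} {R : Type*} [CommRing R] {J : Type*}

/-- The edges of the Newton polytopes of the polynomials `f j`, `j ∈ s`, have altogether at most
`N` directions. -/
def FewDirections (N : ℕ) (s : Finset J) (f : J → MvPolynomial (Fin n) R) : Prop :=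
  ∃ V : Finset (Fin n → ℝ), V.card ≤ N ∧
    ∀ j ∈ s, ∀ a b, Edge (points (f j)) a b → ∃ v ∈ V, ∃ t : ℝ, b - a = t • v

/-- M-convex sets of exponent vectors (Murota): for `x, y ∈ S` and `x_i > y_i` there is a `k` with
`x_k < y_k` such that `x - e_i + e_k` and `y + e_i - e_k` belong to `S`. -/
def MConvex (S : Finset (Fin n →₀ ℕ)) : Prop :=
  ∀ x ∈ S, ∀ y ∈ S, ∀ i, y i < x i → ∃ k, x k < y k ∧
    ∃ x' ∈ S, ∃ y' ∈ S, x' + Finsupp.single i 1 = x + Finsupp.single k 1 ∧
      y' + Finsupp.single k 1 = y + Finsupp.single i 1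

/-- the difference of `e_k` and `e_i` -/
def dir (q : Fin n × Fin n) : Fin n → ℝ := Pi.single q.2 1 - Pi.single q.1 1

lemma mconvex_step {S : Finset (Fin n →₀ ℕ)} (hS : MConvex S) {ma mb : Fin n →₀ ℕ}
    (hma : ma ∈ S) (hmb : mb ∈ S) (w : Fin n → ℝ)
    (hw : ∀ m ∈ S, w ⬝ᵥ (fun i => (m i : ℝ)) ≤ w ⬝ᵥ (fun i => (ma i : ℝ)))
    (hab : w ⬝ᵥ (fun i => (mb i : ℝ)) = w ⬝ᵥ (fun i => (ma i : ℝ))) (i : Fin n)
    (hi : mb i < ma i) :
    ∃ k, k ≠ i ∧ ∃ x' ∈ S, w ⬝ᵥ (fun i => (x' i : ℝ)) = w ⬝ᵥ (fun i => (ma i : ℝ)) ∧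
      (fun l => (x' l : ℝ)) - (fun l => (ma l : ℝ)) = dir (i, k) := by
  classical
  obtain ⟨k, hk, x', hx', y', hy', h1, h2⟩ := hS ma hma mb hmb i hi
  have hki : k ≠ i := by
    rintro rfl
    omega
  have e1 : (fun l => (x' l : ℝ)) - (fun l => (ma l : ℝ)) = dir (i, k) := by
    funext l
    have h3 := congrArg (fun m : Fin n →₀ ℕ => ((m l : ℕ) : ℝ)) h1
    simp only [Finsupp.add_apply, Nat.cast_add, Finsupp.single_apply] at h3
    simp only [dir, Pi.sub_apply, Pi.single_apply]
    have h4 : ∀ (z : Fin n), (((if z = l then 1 else 0 : ℕ)) : ℝ) = if l = z then 1 else 0 := by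
      intro z
      by_cases h : l = z
      · simp [h]
      · rw [if_neg h, if_neg (fun h' => h h'.symm)]; simp
    rw [h4, h4] at h3
    linarith
  have e2 : (fun l => (y' l : ℝ)) - (fun l => (mb l : ℝ)) = -dir (i, k) := by
    funext l
    have h3 := congrArg (fun m : Fin n →₀ ℕ => ((m l : ℕ) : ℝ)) h2
    simp only [Finsupp.add_apply, Nat.cast_add, Finsupp.single_apply] at h3
    simp only [dir, Pi.sub_apply, Pi.single_apply, Pi.neg_apply]
    have h4 : ∀ (z : Fin n), (((if z = l then 1 else 0 : ℕ)) : ℝ) = if l = z then 1 else 0 := by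
      intro z
      by_cases h : l = z
      · simp [h]
      · rw [if_neg h, if_neg (fun h' => h h'.symm)]; simp
    rw [h4, h4] at h3
    linarith
  refine ⟨k, hki, x', hx', ?_, e1⟩
  have f1 := congrArg (fun v => w ⬝ᵥ v) e1
  have f2 := congrArg (fun v => w ⬝ᵥ v) e2
  simp only [dotProduct_sub, dotProduct_neg] at f1 f2
  have g1 := hw x' hx'
  have g2 := hw y' hy'
  linarith

lemma mconvex_dir {S : Finset (Fin n →₀ ℕ)} (hS : MConvex S) {f : MvPolynomial (Fin n) R}
    (hf : f.support = S) (a b : Fin n → ℝ) (h : Edge (points f) a b) :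
    ∃ q : Fin n × Fin n, ∃ t : ℝ, b - a = t • dir q := by
  classical
  obtain ⟨ha, hb, hab, w, hw, hmax⟩ := h
  obtain ⟨ma, hma, rfl⟩ := Finset.mem_image.1 ha
  obtain ⟨mb, hmb, rfl⟩ := Finset.mem_image.1 hb
  rw [hf] at hma hmb
  have hpt : ∀ m ∈ S, (fun i => ((m i : ℕ) : ℝ)) ∈ points f := fun m hm =>
    Finset.mem_image_of_mem _ (by rw [hf]; exact hm)
  have hne : ∃ i, ma i ≠ mb i := by
    by_contra hcon
    push Not at hcon
    exact hab (by funext i; rw [hcon i])
  obtain ⟨i, hi⟩ := hne
  rcases lt_or_gt_of_ne hi with hlt | hgt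
  · -- `ma i < mb i`: step from `mb` towards `ma`
    obtain ⟨k, hki, x', hx', hwx, hx⟩ := mconvex_step hS hmb hma w
      (fun m hm => by rw [hw]; exact (hmax _ (hpt m hm)).1) hw.symm i hlt
    obtain ⟨t, ht⟩ := (hmax _ (hpt x' hx')).2 (by rw [hwx, hw])
    have h1 : dir (i, k) = (t - 1) • ((fun i => ((mb i : ℕ) : ℝ)) - (fun i => ((ma i : ℕ) : ℝ))) := by
      rw [← hx, ht, sub_smul, one_smul]
      abel
    have ht1 : t - 1 ≠ 0 := by
      intro h0
      rw [h0, zero_smul] at h1
      have := congrFun h1 k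
      simp [dir, hki] at this
    refine ⟨(i, k), (t - 1)⁻¹, ?_⟩
    rw [h1, smul_smul, inv_mul_cancel₀ ht1, one_smul]
  · obtain ⟨k, hki, x', hx', hwx, hx⟩ := mconvex_step hS hma hmb w
      (fun m hm => (hmax _ (hpt m hm)).1) hw i hgt
    obtain ⟨t, ht⟩ := (hmax _ (hpt x' hx')).2 hwx
    have h1 : dir (i, k) = t • ((fun i => ((mb i : ℕ) : ℝ)) - (fun i => ((ma i : ℕ) : ℝ))) := by
      rw [← hx, ht]
      abel
    have ht1 : t ≠ 0 := by
      intro h0
      rw [h0, zero_smul] at h1
      have := congrFun h1 k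
      simp [dir, hki] at this
    refine ⟨(i, k), t⁻¹, ?_⟩
    rw [h1, smul_smul, inv_mul_cancel₀ ht1, one_smul]

/-- M-convex supports: at most `n²` directions, for any number of polynomials. -/
lemma few_mconvex (s : Finset J) (f : J → MvPolynomial (Fin n) R)
    (h : ∀ j ∈ s, MConvex (f j).support) : FewDirections (n ^ 2) s f := by
  classical
  refine ⟨Finset.univ.image dir, ?_, ?_⟩
  · refine Finset.card_image_le.trans ?_
    simp [sq]
  · intro j hj a b hab
    obtain ⟨q, t, ht⟩ := mconvex_dir (h j hj) rfl a b hab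
    exact ⟨dir q, Finset.mem_image_of_mem _ (Finset.mem_univ _), t, ht⟩

/-- Sparse polynomials. -/
lemma few_sparse (s : Finset J) (f : J → MvPolynomial (Fin n) R) :
    FewDirections (∑ j ∈ s, (f j).support.card ^ 2) s f := by
  classical
  refine ⟨s.biUnion fun j => ((points (f j)) ×ˢ (points (f j))).image fun q => q.2 - q.1, ?_, ?_⟩
  · refine Finset.card_biUnion_le.trans (Finset.sum_le_sum fun j _ => ?_)
    refine Finset.card_image_le.trans ?_
    rw [Finset.card_product, sq]
    exact Nat.mul_le_mul Finset.card_image_le Finset.card_image_le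
  · intro j hj a b hab
    refine ⟨b - a, ?_, 1, by simp⟩
    rw [Finset.mem_biUnion]
    exact ⟨j, hj, Finset.mem_image.2 ⟨(a, b), Finset.mem_product.2 ⟨hab.1, hab.2.1⟩, rfl⟩⟩

/-- The vector with the prescribed values at the coordinates `(g k).1`. -/
noncomputable def vec {c d : ℕ} (g : Fin c → Fin n × Fin (2 * d + 1)) (i : Fin n) : ℝ := by
  classical
  exact if h : ∃ k, (g k).1 = i then (((g h.choose).2 : ℕ) : ℝ) - d else 0

/-- Edges with few nonzero coordinates. -/
lemma few_short (c d : ℕ) (s : Finset J) (f : J → MvPolynomial (Fin n) R)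
    (hd : ∀ j ∈ s, ∀ i, (f j).degreeOf i ≤ d)
    (h : ∀ j ∈ s, ∀ a b, Edge (points (f j)) a b → (Finset.univ.filter fun i => a i ≠ b i).card ≤ c) :
    FewDirections ((n * (2 * d + 1)) ^ c) s f := by
  classical
  refine ⟨(Finset.univ : Finset (Fin c → Fin n × Fin (2 * d + 1))).image vec, ?_, ?_⟩
  · refine Finset.card_image_le.trans ?_
    simp
  · intro j hj a b hab
    refine ⟨b - a, ?_, 1, by simp⟩
    have hc := h j hj a b hab
    set T : Finset (Fin n) := Finset.univ.filter fun i => a i ≠ b i with hT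
    obtain ⟨ma, hma, hma'⟩ := Finset.mem_image.1 hab.1
    obtain ⟨mb, hmb, hmb'⟩ := Finset.mem_image.1 hab.2.1
    have hle : ∀ m ∈ (f j).support, ∀ i, m i ≤ d := fun m hm i =>
      ((MvPolynomial.degreeOf_le_iff.1 (hd j hj i)) m hm)
    have hTne : T.Nonempty := by
      obtain ⟨i, hi⟩ := Function.ne_iff.1 hab.2.2.1
      exact ⟨i, Finset.mem_filter.2 ⟨Finset.mem_univ _, hi⟩⟩
    obtain ⟨i0, hi0⟩ := hTne
    -- enumerate `T`
    have hcpos : 0 < T.card := Finset.card_pos.2 ⟨i0, hi0⟩
    let e : Fin T.card ≃ T := T.equivFin.symm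
    let en : Fin c → Fin n := fun k => if hk : (k : ℕ) < T.card then (e ⟨k, hk⟩ : Fin n) else i0
    have hen : ∀ i, (∃ k, en k = i) ↔ i ∈ T := by
      intro i
      constructor
      · rintro ⟨k, rfl⟩
        by_cases hk : (k : ℕ) < T.card
        · simp only [en, dif_pos hk]; exact (e ⟨k, hk⟩).2
        · simp only [en, dif_neg hk]; exact hi0
      · intro hi
        refine ⟨⟨(e.symm ⟨i, hi⟩ : ℕ), (e.symm ⟨i, hi⟩).2.trans_le hc⟩, ?_⟩
        simp only [en, dif_pos (e.symm ⟨i, hi⟩).2]
        simp
    have hval : ∀ i, mb i + d - ma i < 2 * d + 1 := fun i => by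
      have h1 := hle mb hmb i
      omega
    refine Finset.mem_image.2 ⟨fun k => (en k, ⟨mb (en k) + d - ma (en k), hval _⟩),
      Finset.mem_univ _, ?_⟩
    funext i
    simp only [vec]
    by_cases hi : i ∈ T
    · have hex := (hen i).2 hi
      rw [dif_pos hex]
      have hch : en hex.choose = i := hex.choose_spec
      have h1 := hle ma hma i
      rw [hch, Pi.sub_apply, ← hma', ← hmb']
      have h2 : ((mb i + d - ma i : ℕ) : ℝ) = (mb i : ℝ) + d - ma i := by
        rw [Nat.cast_sub (by omega), Nat.cast_add]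
      simp only [h2]
      ring
    · have hex : ¬ ∃ k, en k = i := fun hh => hi ((hen i).1 hh)
      rw [dif_neg hex, Pi.sub_apply]
      have : a i = b i := by
        by_contra hne
        exact hi (Finset.mem_filter.2 ⟨Finset.mem_univ _, hne⟩)
      rw [this, sub_self]

/-- (1) The hitting set. (2) There is a suitable prime of polynomial size. (3)–(5) The number of
directions of polynomials with M-convex supports, of polynomials whose Newton polytopes have edges
with at most `c` nonzero coordinates, and of sparse polynomials. -/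
theorem result {R : Type*} [CommRing R] [IsDomain R] {J : Type*} (n : ℕ) :
    (∀ (N D p : ℕ), p.Prime → N * (n - 1) < p → ∀ A : Finset R, D * (p - 1) < A.card →
      ∀ (s : Finset J) (f : J → MvPolynomial (Fin n) R), (∀ j ∈ s, f j ≠ 0) →
        (∏ j ∈ s, f j).totalDegree ≤ D → FewDirections N s f →
        ∃ r < p, ∃ x ∈ A, ∀ j ∈ s,
          MvPolynomial.eval (fun i : Fin n => x ^ (r ^ (i : ℕ) % p)) (f j) ≠ 0) ∧
    (∀ N : ℕ, ∃ p : ℕ, p.Prime ∧ N * (n - 1) < p ∧ p ≤ 2 * (N * (n - 1) + 1)) ∧
    (∀ (s : Finset J) (f : J → MvPolynomial (Fin n) R), (∀ j ∈ s, MConvex (f j).support) →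
      FewDirections (n ^ 2) s f) ∧
    (∀ (c d : ℕ) (s : Finset J) (f : J → MvPolynomial (Fin n) R),
      (∀ j ∈ s, ∀ i, (f j).degreeOf i ≤ d) →
      (∀ j ∈ s, ∀ a b, Edge (points (f j)) a b →
        (Finset.univ.filter fun i => a i ≠ b i).card ≤ c) →
      FewDirections ((n * (2 * d + 1)) ^ c) s f) ∧
    (∀ (s : Finset J) (f : J → MvPolynomial (Fin n) R),
      FewDirections (∑ j ∈ s, (f j).support.card ^ 2) s f) := by
  refine ⟨?_, ?_, fun s f h => few_mconvex s f h, fun c d s f hd h => few_short c d s f hd h,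
    fun s f => few_sparse s f⟩
  · rintro N D p hp hN A hA s f hf hD ⟨V, hV, hedge⟩
    exact hit p hp hN A hA s f hf hD V hV hedge
  · intro N
    obtain ⟨p, hp, h1, h2⟩ := Nat.exists_prime_lt_and_le_two_mul (N * (n - 1) + 1) (by omega)
    exact ⟨p, hp, by omega, h2⟩

end Pool.Agent.Results.MP_b2b50d_lc.FewEdgeDirections
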