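import Pool.Agent.TH762.PT.Thm

/-!
# Identity testing: excluding one value of the number of zero circuits

`Gate`, `WF` (well-formed circuits), `cpoly` (the polynomial over the integers computed by a circuit)
and `ACIT` (identity testing for arithmetic circuits) are those of `Pool.Agent.H531R2.CircDefs`.
`LACIT` is the restriction of `ACIT` to the circuits in which all formal degrees (leaves have the
formal degree `1`, also the constants) are at most the number of gates; this contains formulas,
weakly skew circuits and determinants, and, after padding, all circuits of polynomial formal degree.

Consider `m` questions to a set `A`, where `m = m (n)` is any number at most polynomial in the
length `n` of the questions.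

* `Feasible (ExcludeSorted A)`: some polynomial-time algorithm with `O(log n)` bits of advice
  excludes one of the `m + 1` sorted vectors `1 ^ c 0 ^ (m - c)` as the vector of the answers.
* `Feasible (ExcludeCount A)`: some such algorithm excludes one of the `m + 1` values of the number
  of positive answers.
* `CountQuestions A`: the number of positive answers can be computed in polynomial time with at most
  `log₂ m` (rounded down) adaptive questions to some oracle, which may be any set of strings.

Each of these statements for some set `A` to which `LACIT` reduces is equivalent to `LACIT ∈ P`.

Proof. Let `C` be a circuit with at most `D` gates. The lists `π` of numbers at most `D`, for which
the polynomial does not vanish after the first variables have been replaced by the numbers in `π`,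
form a tree in which every node of small height has a child, since a nonzero polynomial of degree at
most `D` in one variable does not vanish at all of `0, ..., D`. The question if the lexicographically
largest such list of its length is smaller than `π` is whether the polynomials of the restrictions
to the right of the path `π` are all zero; this is identity testing of the sum of their squares,
which is again a circuit of low formal degree. So for lists `π₁ > ⋯ > π_m` the vector of the answers
is sorted, and if the vector number `c` is excluded, the number `c` of the list is discarded. The
candidates of one level of the tree are reduced to at most `m`, and for the last level the
polynomial is evaluated.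
-/

set_option autoImplicit false

namespace Pool.Agent.Results.MP_b2b50d_lc.LowDegreeExclusion

open Pool.Agent.NPC Pool.Agent.H531R2 Pool.Agent.TH684.EX Pool.Agent.TH762.PT

/-- **The exclusion law for identity testing.** -/
theorem result : List.TFAE
    [InP LACIT,
      ∃ A : Set (List Bool), Reduces LACIT A ∧ Feasible (ExcludeSorted A),
      ∃ A : Set (List Bool), Reduces LACIT A ∧ Feasible (ExcludeCount A),
      ∃ A : Set (List Bool), Reduces LACIT A ∧ CountQuestions A] ∧
    ∀ A : Set (List Bool), Reduces ACIT A → Reduces LACIT A :=
  ⟨lacit_law, fun _ h => lacit_reduces.trans h⟩

end Pool.Agent.Results.MP_b2b50d_lc.LowDegreeExclusion
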