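import Mathlib
import Pool.Agent.TH668.Orf.F6
import Pool.Agent.W943.Orb8

/-!
# Explicit hitting sets for orbits of formulas with boundedly many reads

We give explicit hitting sets for compositions `F ∘ φ`, where `φ` is a tuple of independent affine
forms in `n` variables (orbits), or more generally a tuple of polynomials whose Jacobian matrix has
a left inverse up to a factor of the class, and `F` is computed by an arithmetic formula of any size
and depth in which every variable occurs in at most `w` leaves. The leaves are computed by programs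
of width `w` (for instance oblivious algebraic branching programs) which read every variable at most
`w` times, in any order; programs and formulas may be nested to constant depth. No multilinearity
is assumed. The explicit set has `((d+1)(nd+1))^(m(t+1))` points, where `m` is a constant, `d` is
the degree and `t` is the rank of the formula, that is its Strahler number when only product gates
count. The rank is at most the logarithm of the number of leaves; hence the size is quasi-polynomial
for all formulas, and it is polynomial for formulas of bounded rank.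

The generator evaluates the polynomials on a chain of primes which loses one step under
differentiation (`Pool.Agent.W943`). The induction on the number of reads and on the rank is the one
of `Pool.Agent.H530R2`; since in such a chain a variable can be made free only for polynomials of
bounded rank in this variable, all classes are accompanied by bounds for these ranks.
-/

namespace Pool.Agent.Results.MP_b2b50d_lc.OrbitsOfFormulas

open MvPolynomial

/-- Formulas in `n` variables: the leaves are polynomials, a gate computes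
`c₀ + c₁ a + c₂ b + c₃ a b` from the values `a`, `b` of its arguments (in particular `a + b`,
`a - b` and `a b`). -/
inductive Formula (n : ℕ) : Type
  | leaf (g : MvPolynomial (Fin n) ℂ) : Formula n
  | gate (c₀ c₁ c₂ c₃ : ℂ) (a b : Formula n) : Formula n

variable {n : ℕ}

/-- the polynomial computed by a formula -/
noncomputable def Formula.value : Formula n → MvPolynomial (Fin n) ℂ
  | .leaf g => g
  | .gate c₀ c₁ c₂ c₃ a b => C c₀ + C c₁ * a.value + C c₂ * b.value + C c₃ * (a.value * b.value)

open Classical in
/-- the number of leaves in which the variable `x` occurs -/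
noncomputable def Formula.reads : Formula n → Fin n → ℕ
  | .leaf g, x => if x ∈ g.vars then 1 else 0
  | .gate _ _ _ _ a b, x => a.reads x + b.reads x

/-- the set of the polynomials at the leaves -/
def Formula.leaves : Formula n → Set (MvPolynomial (Fin n) ℂ)
  | .leaf g => {g}
  | .gate _ _ _ _ a b => a.leaves ∪ b.leaves

/-- the number of leaves -/
def Formula.size : Formula n → ℕ
  | .leaf _ => 1
  | .gate _ _ _ _ a b => a.size + b.size

open Classical in
/-- The rank of a formula: `0` for leaves. At a gate with `c₃ = 0` it is the maximum of the ranks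
of the arguments. At a gate with `c₃ ≠ 0` it is this maximum if the ranks of the arguments are
different, and it is larger by one if they are equal. -/
noncomputable def Formula.rank : Formula n → ℕ
  | .leaf _ => 0
  | .gate _ _ _ c₃ a b =>
    if c₃ ≠ 0 ∧ a.rank = b.rank then a.rank + 1 else max a.rank b.rank

/-- `f` has rank at most `r` in the variable `k`: it is a sum of `r` products of a univariate
polynomial in `x_k` and a polynomial without `x_k`. Polynomials of degree less than `r` in `x_k`
have this property. -/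
def RankLe (k : Fin n) (r : ℕ) (f : MvPolynomial (Fin n) ℂ) : Prop :=
  ∃ (b : Fin r → Polynomial ℂ) (c : Fin r → MvPolynomial (Fin n) ℂ), (∀ a, k ∉ (c a).vars) ∧
    f = ∑ a, Polynomial.aeval (X k) (b a) * c a

/-- The contents of `u` registers after `b` steps. The registers start with the constants `c₀`;
step `b` replaces the contents of register `j` by an arbitrary polynomial `upd b j` in the old
contents of the registers and the `v` arguments `arg b 0, …, arg b (v-1)` of this step. -/
noncomputable def contents {u v : ℕ} (c₀ : Fin u → ℂ)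
    (arg : ℕ → Fin v → MvPolynomial (Fin n) ℂ)
    (upd : ℕ → Fin u → MvPolynomial (Fin u ⊕ Fin v) ℂ) : ℕ → Fin u → MvPolynomial (Fin n) ℂ
  | 0 => fun j => C (c₀ j)
  | b + 1 => fun j => aeval (Sum.elim (contents c₀ arg upd b) (arg b)) (upd b j)

/-- `Comp w D f`: the polynomial `f` is computed with width, number of reads and rank at most `w`
and nesting depth `D`.
* `base` (depth `0`): sums of `w` products of `w` univariate polynomials of arbitrary degree and a
  polynomial of total degree at most `w`.
* `linear` (depth `D + 1`): the bilinear form `u ⬝ M_0 M_1 ⋯ M_{R-1} ⬝ v` of any length `R`, where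
  the entries of the `w × w` matrices `M_t` have depth `D` and every variable occurs in at most `w`
  of these matrices.
* `program` (depth `D + 1`): a polynomial `P` in the final contents of at most `w` registers of a
  program with arbitrary polynomial updates and at most `w` arguments of depth `D` in every step.
  Up to a set `S` of at most `w` exceptional variables, every variable occurs in the arguments of
  at most `w` steps; the contents and the result have rank at most `w` in every variable.
* `formula` (depth `D + 1`): the value of a formula of any size with leaves of depth `D`, in which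
  every variable occurs in at most `w` leaves and whose rank is at most `w`. -/
inductive Comp (w : ℕ) : ℕ → MvPolynomial (Fin n) ℂ → Prop
  | base (i : Fin w → Fin w → Fin n) (p : Fin w → Fin w → Polynomial ℂ)
      (g : Fin w → MvPolynomial (Fin n) ℂ) (hg : ∀ a, (g a).totalDegree ≤ w) :
      Comp w 0 (∑ a, (∏ b, Polynomial.aeval (X (i a b)) (p a b)) * g a)
  | up {D : ℕ} {f : MvPolynomial (Fin n) ℂ} : Comp w D f → Comp w (D + 1) f
  | linear {D : ℕ} (R : ℕ) (M : Fin R → Matrix (Fin w) (Fin w) (MvPolynomial (Fin n) ℂ))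
      (u v : Fin w → ℂ) (hM : ∀ t i j, Comp w D (M t i j))
      (hR : ∀ k, (Finset.univ.filter fun t => ∃ i j, k ∈ (M t i j).vars).card ≤ w) :
      Comp w (D + 1) (∑ i, ∑ j, C (u i) * (List.ofFn M).prod i j * C (v j))
  | program {D u v : ℕ} (c₀ : Fin u → ℂ) (arg : ℕ → Fin v → MvPolynomial (Fin n) ℂ)
      (upd : ℕ → Fin u → MvPolynomial (Fin u ⊕ Fin v) ℂ) (R : ℕ) (P : MvPolynomial (Fin u) ℂ)
      (S : Finset (Fin n)) : u ≤ w → v ≤ w → S.card ≤ w →
      (∀ k, k ∉ S → ((Finset.range R).filter fun b => ∃ i, k ∈ (arg b i).vars).card ≤ w) →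
      (∀ b i, Comp w D (arg b i)) →
      (∀ t ≤ R, ∀ j k, RankLe k w (contents c₀ arg upd t j)) →
      (∀ k, RankLe k w (aeval (contents c₀ arg upd R) P)) →
      Comp w (D + 1) (aeval (contents c₀ arg upd R) P)
  | formula {D : ℕ} (E : Formula n) : (∀ g, g ∈ E.leaves → Comp w D g) →
      (∀ x, E.reads x ≤ w) → E.rank ≤ w → Comp w (D + 1) E.value

/-- Composites `P(g_0, …, g_{N-1})` of the values `g_i` of formulas of any size and of rank at most
`t`, with leaves of depth `D`, in which every variable occurs in at most `w` leaves; any `r + 1` of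
the `g_i` are algebraically dependent; the number `N`, the polynomial `P` and its degree are
arbitrary. For `N = r = 1` this includes the values of such formulas. -/
def Composite (w D r t : ℕ) (f : MvPolynomial (Fin n) ℂ) : Prop :=
  ∃ (N : ℕ) (E : Fin N → Formula n) (P : MvPolynomial (Fin N) ℂ),
    (∀ i, (∀ g, g ∈ (E i).leaves → Comp w D g) ∧ (∀ x, (E i).reads x ≤ w) ∧ (E i).rank ≤ t) ∧
    (∀ q : Fin (r + 1) → Fin N, ¬ AlgebraicIndependent ℂ (fun i => (E (q i)).value)) ∧
    f = aeval (fun i => (E i).value) P

/-- `Cls m w D r n s f`: the polynomial `f` in `n` variables is in the class with `s` seed pairs.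
* `formula`: nonzero composites of formulas of rank at most `t`, with `m (t + 1)` seed pairs.
* The class contains the nonzero constants and it is closed under products and factors.
* `primitive`: polynomials with a derivative along a vector field in the class.
* `comp`: compositions `F(φ_0, …, φ_{k-1})` of members `F` with tuples `φ` of polynomials whose
  Jacobian matrix has a left inverse over the polynomial ring up to a factor `Δ` in the class (for
  example linearly independent affine forms, with `Δ = 1`, which does not need any seeds). -/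
inductive Cls (m w D r : ℕ) : (n : ℕ) → ℕ → MvPolynomial (Fin n) ℂ → Prop
  | formula {n t : ℕ} {F : MvPolynomial (Fin n) ℂ} (hF : Composite w D r t F) (h0 : F ≠ 0) :
      Cls m w D r n (m * (t + 1)) F
  | const {n : ℕ} {c : ℂ} (hc : c ≠ 0) : Cls m w D r n 0 (C c)
  | mono {n s s' : ℕ} {f : MvPolynomial (Fin n) ℂ} (h : Cls m w D r n s f) (hs : s ≤ s') :
      Cls m w D r n s' f
  | mul {n s : ℕ} {f g : MvPolynomial (Fin n) ℂ} (hf : Cls m w D r n s f)
      (hg : Cls m w D r n s g) : Cls m w D r n s (f * g)
  | factor {n s : ℕ} {f g : MvPolynomial (Fin n) ℂ} (hg : Cls m w D r n s g) (h : f ∣ g) :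
      Cls m w D r n s f
  | primitive {n s : ℕ} {f : MvPolynomial (Fin n) ℂ} (V : Fin n → MvPolynomial (Fin n) ℂ)
      (h : Cls m w D r n s (∑ l, V l * pderiv l f)) : Cls m w D r n (s + 1) f
  | comp {n k s s' : ℕ} {F : MvPolynomial (Fin k) ℂ} (hF : Cls m w D r k s' F)
      (φ : Fin k → MvPolynomial (Fin n) ℂ) (E : Fin k → Fin n → MvPolynomial (Fin n) ℂ)
      {Δ : MvPolynomial (Fin n) ℂ}
      (hE : ∀ i j, ∑ l, E i l * pderiv l (φ j) = if i = j then Δ else 0)
      (hΔ : Cls m w D r n s Δ) : Cls m w D r n (s + s') (aeval φ F)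

/-- The oblivious branching program `u ⬝ M_0(x_{a 0}) M_1(x_{a 1}) ⋯ M_{l-1}(x_{a (l-1)}) ⬝ v` of
width `w`, with matrices of univariate polynomials, which reads the variables in the order
`a 0, a 1, …, a (l-1)`. -/
noncomputable def oblivious {n w l : ℕ} (a : Fin l → Fin n)
    (M : Fin l → Matrix (Fin w) (Fin w) (Polynomial ℂ)) (u v : Fin w → ℂ) :
    MvPolynomial (Fin n) ℂ :=
  ∑ i, ∑ j, C (u i) * (List.ofFn fun t : Fin l =>
    (M t).map (Polynomial.aeval (X (a t) : MvPolynomial (Fin n) ℂ))).prod i j * C (v j)

/-- The point with seeds `y, z ∈ ℕ^s`: its `i`-th coordinate is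
`∑_l y_l ∏_{k ≠ i} (z_l - k)` (the Shpilka–Volkovich generator with nodes `0, …, n-1`). -/
def point (n s : ℕ) (y z : Fin s → ℕ) : Fin n → ℤ :=
  fun i => ∑ l : Fin s, (y l : ℤ) * ∏ k ∈ Finset.univ.erase i, ((z l : ℤ) - (k.val : ℤ))

/-- The explicit set of all points with seeds `y ∈ {0,…,d}^s`, `z ∈ {0,…,nd}^s`. -/
def points (n s d : ℕ) : Finset (Fin n → ℤ) :=
  ((Fintype.piFinset fun _ : Fin s => Finset.range (d + 1)) ×ˢ
    (Fintype.piFinset fun _ : Fin s => Finset.range (n * d + 1))).image
    fun yz => point n s yz.1 yz.2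

open Pool.Agent.W943 Pool.Agent.H530R2 Pool.Agent.TH668.Orf

/-- the families of classes -/
noncomputable def upO : ℕ → FamO ℂ
  | 0 => baseO ℂ
  | D + 1 => nextT (upO D).next

/-- the parameter of the classes -/
noncomputable def bdO (w : ℕ) : ℕ → ℕ
  | 0 => w
  | D + 1 =>
    let A := bdO w D + w + w * w + (w * w * (upO D).bd (bdO w D) + 1) ^ w + 1 +
      (upO D).bd (bdO w D)
    A + rb A A

/-- the parameter of the programs -/
noncomputable def bdP (w D : ℕ) : ℕ :=
  bdO w D + w + w * w + (w * w * (upO D).bd (bdO w D) + 1) ^ w + 1 + (upO D).bd (bdO w D)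

theorem bdO_succ (w D : ℕ) : bdO w (D + 1) = bdP w D + rb (bdP w D) (bdP w D) := rfl

theorem RankLe.bdl {n : ℕ} {k : Fin n} {r : ℕ} {f : MvPolynomial (Fin n) ℂ} (h : RankLe k r f) :
    Bdl k r f := by
  obtain ⟨b, c, hc, hf⟩ := h
  refine ⟨r, le_rfl, b, c, fun a => ?_, hf⟩
  rw [mem_supported]
  intro x hx
  show x ≠ k
  rintro rfl
  exact hc a (Finset.mem_coe.1 hx)

theorem rowOf_eq {n w : ℕ} (u : Fin w → ℂ)
    (M : ℕ → Matrix (Fin w) (Fin w) (MvPolynomial (Fin n) ℂ)) (R : ℕ) (j : Fin w) :
    rowOf u M R j = ∑ i, C (u i) * (List.ofFn fun t : Fin R => M t).prod i j := by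
  induction R generalizing j with
  | zero =>
    simp [rowOf, Matrix.one_apply]
  | succ R ih =>
    simp only [rowOf]
    rw [List.ofFn_succ', List.concat_eq_append, List.prod_append, List.prod_singleton]
    simp only [Matrix.mul_apply, Fin.val_last, Fin.val_castSucc, Finset.mul_sum]
    rw [Finset.sum_comm]
    apply Finset.sum_congr rfl
    intro l _
    rw [ih l, Finset.sum_mul]
    apply Finset.sum_congr rfl
    intro i _
    ring

/-- translation to the formulas of `Pool.Agent.H530R2` -/
noncomputable def toTr : Formula n → Tr ℂ n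
  | .leaf g => .leaf g
  | .gate c₀ c₁ c₂ c₃ a b =>
    .gate (C c₀ + C c₁ * X 0 + C c₂ * X 1 + C c₃ * (X 0 * X 1)) (toTr a) (toTr b)

theorem toTr_val (E : Formula n) : (toTr E).val = E.value := by
  induction E with
  | leaf g => rfl
  | gate c₀ c₁ c₂ c₃ a b iha ihb =>
    simp only [toTr, Tr.val, Formula.value, map_add, map_mul, algHom_C, aeval_X, iha, ihb]
    rfl

theorem toTr_occ (E : Formula n) (x : Fin n) : (toTr E).occ x = E.reads x := by
  induction E with
  | leaf g => simp only [toTr, Tr.occ, Formula.reads]
  | gate c₀ c₁ c₂ c₃ a b iha ihb => simp only [toTr, Tr.occ, Formula.reads, iha, ihb]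

theorem toTr_ml (E : Formula n) : (toTr E).ML := by
  induction E with
  | leaf g => trivial
  | gate c₀ c₁ c₂ c₃ a b iha ihb => exact ⟨iha, ihb, c₀, c₁, c₂, c₃, rfl⟩

theorem toTr_rk (E : Formula n) : (toTr E).rk = E.rank := by
  classical
  induction E with
  | leaf g => rfl
  | gate c₀ c₁ c₂ c₃ a b iha ihb =>
    simp only [toTr, Tr.rk, Formula.rank, cpr_affine, iha, ihb, stf]
    by_cases h : c₃ = 0
    · rw [if_pos h, if_neg (fun hc => hc.1 h)]
    · rw [if_neg h]
      by_cases h' : a.rank = b.rank
      · rw [if_pos h', if_pos ⟨h, h'⟩]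
      · rw [if_neg h', if_neg (fun hc => h' hc.2)]

theorem toTr_lv {L : Set (MvPolynomial (Fin n) ℂ)} (E : Formula n)
    (h : ∀ g, g ∈ E.leaves → g ∈ L) : (toTr E).Lv L := by
  induction E with
  | leaf g => exact h g rfl
  | gate c₀ c₁ c₂ c₃ a b iha ihb =>
    exact ⟨iha fun g hg => h g (Or.inl hg), ihb fun g hg => h g (Or.inr hg)⟩

theorem two_pow_rank (E : Formula n) : 2 ^ E.rank ≤ E.size := by
  classical
  induction E with
  | leaf g => exact le_rfl
  | gate c₀ c₁ c₂ c₃ a b iha ihb =>
    simp only [Formula.rank, Formula.size]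
    split_ifs with h
    · rw [pow_succ]
      have h1 := h.2
      rw [← h1] at ihb
      omega
    · rcases le_total a.rank b.rank with h1 | h1
      · rw [max_eq_right h1]
        omega
      · rw [max_eq_left h1]
        omega

theorem toTr_gd {L : Set (MvPolynomial (Fin n) ℂ)} {K : ℕ} (E : Formula n)
    (h : ∀ g, g ∈ E.leaves → g ∈ L) (hK : ∀ x, E.reads x ≤ K) : Gd L K (toTr E) :=
  ⟨toTr_ml E, toTr_lv E h, fun i => by rw [toTr_occ]; exact hK i⟩

/-- programs -/
theorem next_up {D W : ℕ} (hW : 1 ≤ W) {f : MvPolynomial (Fin n) ℂ}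
    (hf : f ∈ (upO D).next.K n W) : f ∈ (upO (D + 1)).K n W :=
  OutT.ofK le_rfl hW le_rfl hf

theorem comp_mem {n w D : ℕ} {f : MvPolynomial (Fin n) ℂ} (h : Comp w D f) :
    f ∈ (upO D).K n (bdO w D) := by
  classical
  have hP1 : ∀ D, 1 ≤ bdP w D := fun D => by unfold bdP; omega
  have hPO : ∀ D, bdP w D ≤ bdO w (D + 1) := fun D => by rw [bdO_succ]; omega
  induction h with
  | base i p g hg =>
    show SP _ _ _ _
    refine ⟨Fin w, inferInstance, fun a => ∏ b, Polynomial.aeval (X (i a b)) (p a b), g, ?_,
      fun a => ?_, hg, rfl⟩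
    · rw [Fintype.card_fin]; exact le_rfl
    · refine ⟨List.ofFn fun b => (i a b, p a b), ?_, ?_⟩
      · rw [List.length_ofFn]; exact le_rfl
      · rw [List.map_ofFn, List.prod_ofFn]
        rfl
  | @up D f _ ih =>
    exact (upO (D + 1)).mono (hPO D) (next_up (hP1 D)
      ((upO D).toNext (by unfold bdP; omega) (hP1 D) (by unfold bdP; omega) ih))
  | @linear D R M u v hM hR ih =>
    set M' : ℕ → Matrix (Fin w) (Fin w) (MvPolynomial (Fin n) ℂ) :=
      fun t => if h : t < R then M ⟨t, h⟩ else 0 with hM'
    have hMM : ∀ t : Fin R, M' t = M t := fun t => by simp [hM', t.isLt]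
    have h1 := linear_mem (upO D) (W := bdO w D) (k := w) u v M' R (fun t ht l j => by
      have := hMM ⟨t, ht⟩
      simp only at this
      rw [this]
      exact ih _ _ _) (fun x => by
      refine le_trans ?_ (hR x)
      rw [← Finset.card_map (⟨Fin.val, Fin.val_injective⟩ : Fin R ↪ ℕ)]
      apply Finset.card_le_card
      intro t ht
      obtain ⟨ht1, l, j, hlj⟩ := Finset.mem_filter.1 ht
      rw [Finset.mem_range] at ht1
      refine Finset.mem_map.2 ⟨⟨t, ht1⟩, Finset.mem_filter.2 ⟨Finset.mem_univ _, l, j, ?_⟩, rfl⟩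
      rwa [← hMM ⟨t, ht1⟩])
    have h2 : ∑ j, rowOf u M' R j * C (v j) =
        ∑ i, ∑ j, C (u i) * (List.ofFn M).prod i j * C (v j) := by
      rw [Finset.sum_comm]
      apply Finset.sum_congr rfl
      intro j _
      rw [rowOf_eq, Finset.sum_mul]
      simp only [hMM]
    rw [h2] at h1
    refine (upO (D + 1)).mono (hPO D) (next_up (hP1 D) ?_)
    exact (upO D).next.mono (by unfold bdP; omega) h1
  | @program D u v c₀ arg upd R P S hu hv hS hocc _ hrk hrkf ih =>
    refine (upO (D + 1)).mono (hPO D) (next_up (hP1 D) ?_)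
    set B : ℕ → Finset (Fin n) := fun t => Finset.univ.biUnion fun i => (arg t i).vars with hB
    have hreg : RegO (upO D) B (bdO w D + (upO D).c0) (fun b j => contents c₀ arg upd b j)
        (fun b i => arg b i) := by
      refine ⟨fun i => ⟨c₀ i, rfl⟩,
        fun b i => (upO D).mono (Nat.le_add_right _ _) (ih b i), ?_, fun b j => ?_⟩
      · intro b i
        rw [mem_supported]
        exact_mod_cast Finset.subset_biUnion_of_mem (fun i => (arg b i).vars) (Finset.mem_univ i)
      · have h1 : contents c₀ arg upd (b + 1) j =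
          aeval (Sum.elim (contents c₀ arg upd b) (arg b)) (upd b j) := rfl
        show contents c₀ arg upd (b + 1) j ∈ _
        rw [h1, ← Set.Sum.elim_range, Algebra.adjoin_range_eq_range_aeval]
        exact ⟨upd b j, rfl⟩
    refine OutO.ofReg (hreg.trunc (Nat.le_add_left _ _) R) ?_ ?_ ?_ ?_ ⟨S, ?_, ?_⟩ (R := R) ?_ ?_
    · intro t j x _
      exact (hrk (min t R) (min_le_right _ _) j x).bdl.mono (by unfold bdP; omega)
    · unfold bdP; omega
    · rw [Fintype.card_fin]; unfold bdP; omega
    · rw [Fintype.card_fin]; unfold bdP; omega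
    · unfold bdP; omega
    · intro k hk t
      refine ((cnt_trunc B R t k).trans ?_).trans (show w ≤ bdP w D by unfold bdP; omega)
      refine le_trans ?_ (hocc k hk)
      unfold cnt
      apply Finset.card_le_card
      intro t' ht'
      obtain ⟨h1, h2⟩ := Finset.mem_filter.1 ht'
      obtain ⟨i, _, hi⟩ := Finset.mem_biUnion.1 h2
      exact Finset.mem_filter.2 ⟨h1, i, hi⟩
    · show aeval (contents c₀ arg upd R) P ∈ Algebra.adjoin ℂ
        (Set.range fun j => contents c₀ arg upd (min R R) j)
      rw [min_self]
      have h1 := (Algebra.adjoin_range_eq_range_aeval ℂ (contents c₀ arg upd R)).ge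
      exact h1 ⟨P, rfl⟩
    · intro x _
      exact (hrkf x).bdl.mono (by unfold bdP; omega)
  | @formula D E _ hocc hrk ih =>
    rw [← toTr_val]
    have hw : w ≤ bdP w D := by unfold bdP; omega
    have hG : Gd ((upO D).next.K n (bdP w D)) (bdP w D) (toTr E) :=
      toTr_gd E (fun g hg => (upO D).toNext (by unfold bdP; omega) (hP1 D)
        (by unfold bdP; omega) (ih g hg)) fun x => (hocc x).trans hw
    refine OutT.ofVal (𝔎 := (upO D).next) (hP1 D) hG ?_ (hPO D) ?_
    · rw [toTr_rk]
      exact hrk.trans hw
    · rw [bdO_succ]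
      exact Nat.le_add_left _ _

theorem composite_notMem (w D r : ℕ) : ∃ m : ℕ, ∀ (n t : ℕ) (F : MvPolynomial (Fin n) ℂ),
    Composite w D r t F → F ≠ 0 → ∀ V : DChain ℂ n, F ∉ V.I (m * (t + 1)) := by
  obtain ⟨m, hm⟩ := compositeO (upO D) w (bdO w D) r
  refine ⟨m, ?_⟩
  rintro n t F ⟨N, E, P, hE, htr, rfl⟩ h0 V
  have hval : (fun i => (E i).value) = fun i => (toTr (E i)).val := by
    funext i
    exact (toTr_val _).symm
  rw [hval] at h0 ⊢
  refine hm n V t N (fun i => toTr (E i)) P
    (fun i => toTr_gd _ (fun g hg => comp_mem ((hE i).1 g hg)) (hE i).2.1)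
    (fun i => by rw [toTr_rk]; exact (hE i).2.2) (fun s => ?_) h0
  have h1 : (fun i => (toTr (E (s i))).val) = fun i => (E (s i)).value := by
    funext i
    exact toTr_val _
  rw [h1]
  exact htr s

/-- The polynomials of the class are not in the primes of the corresponding level. -/
theorem Cls.notMem {m w D r : ℕ} (hm : ∀ (n t : ℕ) (F : MvPolynomial (Fin n) ℂ),
    Composite w D r t F → F ≠ 0 → ∀ V : DChain ℂ n, F ∉ V.I (m * (t + 1)))
    {n s : ℕ} {f : MvPolynomial (Fin n) ℂ} (h : Cls m w D r n s f) :
    ∀ V : DChain ℂ n, f ∉ V.I s := by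
  induction h with
  | formula hF h0 => exact hm _ _ _ hF h0
  | const hc => exact fun V hmem => hc (V.const_mem hmem)
  | mono h hs ih => exact fun V hc => ih V (V.mono hs hc)
  | mul hf hg ihf ihg =>
    intro V hc
    rcases (V.prime _).mem_or_mem hc with h | h
    · exact ihf V h
    · exact ihg V h
  | factor hg h ih => exact fun V hc => ih V (Ideal.mem_of_dvd _ h hc)
  | primitive D h ih => exact fun V hc => ih V (V.vf_mem D hc)
  | comp hF φ E hE hΔ ihF ihΔ =>
    intro V hc
    exact ihF (V.pull φ E _ hE _ (ihΔ V)) hc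

/-- Compositions with linearly independent affine forms do not need more seeds. -/
theorem affine {m w D r n k s : ℕ} {F : MvPolynomial (Fin k) ℂ} (hF : Cls m w D r k s F)
    (A : Fin k → Fin n → ℂ) (b : Fin k → ℂ) (hA : LinearIndependent ℂ A) :
    Cls m w D r n s (aeval (fun j => ∑ l, C (A j l) * X l + C (b j)) F) := by
  classical
  have hd : ∀ i : Fin k, ∃ d : Fin n → ℂ, ∀ j, A j ⬝ᵥ d = if i = j then 1 else 0 :=
    fun i => Pool.Agent.H530R2.exists_dual A hA _
  choose d hd using hd
  have h := Cls.comp (n := n) hF (fun j => ∑ l, C (A j l) * X l + C (b j))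
    (fun i l => C (d i l)) (Δ := C 1) (s := 0) ?_ (Cls.const one_ne_zero)
  · rwa [zero_add] at h
  · intro i j
    have h1 : ∀ l, pderiv l (∑ l', C (A j l') * X l' + C (b j) : MvPolynomial (Fin n) ℂ) =
        C (A j l) := by
      intro l
      rw [map_add, pderiv_C, add_zero, map_sum, Finset.sum_eq_single l]
      · rw [pderiv_C_mul, pderiv_X_self, mul_one]
      · intro l' _ hl'
        rw [pderiv_C_mul, pderiv_X_of_ne hl', mul_zero]
      · intro h; exact absurd (Finset.mem_univ _) h
    simp only [h1, ← map_mul, ← map_sum]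
    have h2 : ∑ l, d i l * A j l = if i = j then 1 else 0 := by
      rw [← hd i j, dotProduct]
      exact Finset.sum_congr rfl fun l _ => mul_comm _ _
    rw [h2]
    split_ifs
    · rfl
    · rw [map_zero]

/-- oblivious programs have depth `1` -/
theorem oblivious_comp {n w l : ℕ} (a : Fin l → Fin n)
    (ha : ∀ i, (Finset.univ.filter fun t => a t = i).card ≤ w)
    (M : Fin l → Matrix (Fin w) (Fin w) (Polynomial ℂ)) (u v : Fin w → ℂ) :
    Comp w 1 (oblivious a M u v) := by
  classical
  unfold oblivious
  refine Comp.linear l _ u v (fun t i j => ?_) (fun k => ?_)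
  · have hw : 0 < w := Nat.pos_of_ne_zero fun h => by subst h; exact i.elim0
    have key := Comp.base (n := n) (w := w) (fun _ _ => a t)
      (fun c e => if c.val = 0 ∧ e.val = 0 then M t i j else 1)
      (fun c => if c.val = 0 then 1 else 0) (fun c => by split_ifs <;> simp)
    have h1 : (∑ c : Fin w, (∏ e : Fin w, Polynomial.aeval (X (a t) : MvPolynomial (Fin n) ℂ)
        (if c.val = 0 ∧ e.val = 0 then M t i j else 1)) *
        (if c.val = 0 then (1 : MvPolynomial (Fin n) ℂ) else 0)) =
        ((M t).map (Polynomial.aeval (X (a t) : MvPolynomial (Fin n) ℂ))) i j := by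
      rw [Finset.sum_eq_single (⟨0, hw⟩ : Fin w)]
      · rw [Finset.prod_eq_single (⟨0, hw⟩ : Fin w)]
        · simp
        · intro e _ he
          have : ¬ e.val = 0 := fun h => he (Fin.ext h)
          simp [this]
        · intro h; exact absurd (Finset.mem_univ _) h
      · intro c _ hc
        have : ¬ c.val = 0 := fun h => hc (Fin.ext h)
        simp [this]
      · intro h; exact absurd (Finset.mem_univ _) h
    rw [← h1]
    exact key
  · refine le_trans (Finset.card_le_card ?_) (ha k)
    intro t ht
    rw [Finset.mem_filter] at ht ⊢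
    obtain ⟨_, i, j, hij⟩ := ht
    refine ⟨Finset.mem_univ _, ?_⟩
    have h2 : (Polynomial.aeval (X (a t) : MvPolynomial (Fin n) ℂ)) (M t i j) ∈
        supported ℂ ({a t} : Set (Fin n)) := by
      have h3 : (X (a t) : MvPolynomial (Fin n) ℂ) ∈ supported ℂ ({a t} : Set (Fin n)) :=
        X_mem_supported.2 rfl
      exact (Algebra.adjoin_le (S := supported ℂ ({a t} : Set (Fin n))) (by simpa using h3))
        (Polynomial.aeval_mem_adjoin_singleton ℂ _)
    have h4 := mem_supported.1 h2 (Finset.mem_coe.2 hij)
    exact (Set.mem_singleton_iff.1 h4).symm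

/-- For all bounds `w, D, r` there is `m` such that for all `n, s, d` the explicit set
`points n s d ⊆ ℤ^n`, which has at most `((d+1)(nd+1))^s` elements with coordinates of polynomial
bit length, hits all polynomials of degree at most `d` in the class `Cls m w D r n s`. This class
contains for `s = m (t + 1)` all nonzero compositions of formulas of rank `t`, with at most `w`
occurrences of every variable, and linearly independent affine forms; the rank is at most the
logarithm of the number of leaves. -/
theorem result (w D r : ℕ) : ∃ m : ℕ,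
    (∀ n s d : ℕ, (points n s d).card ≤ ((d + 1) * (n * d + 1)) ^ s ∧
      (∀ p ∈ points n s d, ∀ i, |p i| ≤ ((s * d * (n * d + n) ^ (n - 1) : ℕ) : ℤ)) ∧
      (∀ f : MvPolynomial (Fin n) ℂ, Cls m w D r n s f → f.totalDegree ≤ d →
        ∃ p ∈ points n s d, MvPolynomial.eval (fun i => (p i : ℂ)) f ≠ 0)) ∧
    (∀ (n k t : ℕ) (E : Formula k) (A : Fin k → Fin n → ℂ) (b : Fin k → ℂ), 1 ≤ r →
      (∀ g, g ∈ E.leaves → Comp w D g) → (∀ x, E.reads x ≤ w) → E.rank ≤ t →
      LinearIndependent ℂ A → aeval (fun j => ∑ l, C (A j l) * X l + C (b j)) E.value ≠ 0 →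
      Cls m w D r n (m * (t + 1)) (aeval (fun j => ∑ l, C (A j l) * X l + C (b j)) E.value)) ∧
    (∀ (n k s : ℕ) (F : MvPolynomial (Fin k) ℂ) (A : Fin k → Fin n → ℂ) (b : Fin k → ℂ),
      Cls m w D r k s F → LinearIndependent ℂ A →
      Cls m w D r n s (aeval (fun j => ∑ l, C (A j l) * X l + C (b j)) F)) ∧
    (∀ (n : ℕ) (E : Formula n), 2 ^ E.rank ≤ E.size) ∧
    (∀ (n l : ℕ) (a : Fin l → Fin n), (∀ i, (Finset.univ.filter fun t => a t = i).card ≤ w) →
      ∀ (M : Fin l → Matrix (Fin w) (Fin w) (Polynomial ℂ)) (u v : Fin w → ℂ),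
      Comp w 1 (oblivious a M u v)) := by
  obtain ⟨m, hm⟩ := composite_notMem w D r
  refine ⟨m, ?_, ?_, fun n k s F A b hF hA => affine hF A b hA, fun n E => two_pow_rank E,
    fun n l a ha M u v => oblivious_comp a ha M u v⟩
  · intro n s d
    refine ⟨Pool.Agent.H530R2.hitSet_card n _ d,
      fun p hp i => Pool.Agent.H530R2.hitSet_bound n _ d p hp i, ?_⟩
    intro f hf hd
    exact Pool.Agent.H530R2.exists_hit n s d f hd (hf.notMem hm
      (Pool.Agent.W943.genChain (fun i : Fin n => ((i.val : ℕ) : ℂ))
        (Pool.Agent.H530R2.nodes_injective n)))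
  · intro n k t E A b hr hL hocc hrk hA h0
    refine affine (Cls.formula (t := t) ⟨1, fun _ => E, X 0, fun _ => ⟨hL, hocc, hrk⟩, ?_,
      by rw [aeval_X]⟩ ?_) A b hA
    · intro q hq
      have h1 := hq.injective
      have h2 : (⟨0, by omega⟩ : Fin (r + 1)) = ⟨1, by omega⟩ := h1 rfl
      exact absurd (congrArg Fin.val h2) (by simp)
    · rintro h
      rw [h, map_zero] at h0
      exact h0 rfl

end Pool.Agent.Results.MP_b2b50d_lc.OrbitsOfFormulas
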